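import Mathlib

set_option autoImplicit false

universe u

namespace Pool.Agent.Results.MP_f6eb07_gt.PowersMA

open Set Cardinal

/-- The countable chain condition for a partially ordered set `P`: every set of pairwise
incompatible elements is countable. -/
def CCC (P : Type) [PartialOrder P] : Prop :=
  ∀ A : Set P, (∀ p ∈ A, ∀ q ∈ A, p ≠ q → ¬ ∃ r : P, r ≤ p ∧ r ≤ q) → A.Countable

/-- Martin's axiom: for every nonempty ccc partially ordered set and every family of fewer than
continuum many dense subsets there is a filter meeting all of them. -/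
def MartinAxiom : Prop :=
  ∀ (P : Type) [PartialOrder P] [Nonempty P], CCC P →
    ∀ 𝒟 : Set (Set P), #𝒟 < 𝔠 → (∀ D ∈ 𝒟, ∀ p : P, ∃ q ∈ D, q ≤ p) →
      ∃ G : Set P, G.Nonempty ∧ (∀ p ∈ G, ∀ q : P, p ≤ q → q ∈ G) ∧
        (∀ p ∈ G, ∀ q ∈ G, ∃ r ∈ G, r ≤ p ∧ r ≤ q) ∧ ∀ D ∈ 𝒟, (G ∩ D).Nonempty

/-- Martin's axiom for `ℵ₁` dense sets: for every nonempty ccc partially ordered set and every
family of at most `ℵ₁` dense subsets there is a filter meeting all of them. -/
def MartinAxiomAlephOne : Prop :=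
  ∀ (P : Type) [PartialOrder P] [Nonempty P], CCC P →
    ∀ 𝒟 : Set (Set P), #𝒟 ≤ ℵ₁ → (∀ D ∈ 𝒟, ∀ p : P, ∃ q ∈ D, q ≤ p) →
      ∃ G : Set P, G.Nonempty ∧ (∀ p ∈ G, ∀ q : P, p ≤ q → q ∈ G) ∧
        (∀ p ∈ G, ∀ q ∈ G, ∃ r ∈ G, r ≤ p ∧ r ≤ q) ∧ ∀ D ∈ 𝒟, (G ∩ D).Nonempty

/-- The spread of a topological space: `ℵ₀` plus the supremum of the cardinalities of its
discrete subspaces. -/
noncomputable def spread (Z : Type u) [TopologicalSpace Z] : Cardinal.{u} :=
  ℵ₀ + ⨆ D : {D : Set Z // DiscreteTopology D}, #D.1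

/-- The tightness of a topological space: the least infinite cardinal `κ` such that every point in
the closure of a set `A` lies in the closure of a subset of `A` of cardinality at most `κ`. -/
noncomputable def tightness (X : Type u) [TopologicalSpace X] : Cardinal.{u} :=
  sInf {κ : Cardinal.{u} | ℵ₀ ≤ κ ∧ ∀ (A : Set X) (x : X), x ∈ closure A →
    ∃ B ⊆ A, #B ≤ κ ∧ x ∈ closure B}

/-- Hereditarily separable spaces: every subset has a countable dense subset. -/
def HereditarilySeparable (X : Type u) [TopologicalSpace X] : Prop :=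
  ∀ A : Set X, ∃ B ⊆ A, B.Countable ∧ A ⊆ closure B

/-- Hereditarily Lindelof spaces: every family of open sets has a countable subfamily with the same
union. -/
def HereditarilyLindelof (X : Type u) [TopologicalSpace X] : Prop :=
  ∀ 𝒪 : Set (Set X), (∀ O ∈ 𝒪, IsOpen O) → ∃ 𝒞 ⊆ 𝒪, 𝒞.Countable ∧ ⋃₀ 𝒞 = ⋃₀ 𝒪

/-- Zero-dimensional spaces: the clopen sets form a base. -/
def ZeroDimensional (X : Type u) [TopologicalSpace X] : Prop :=
  ∀ (x : X) (U : Set X), IsOpen U → x ∈ U → ∃ C : Set X, IsClopen C ∧ x ∈ C ∧ C ⊆ U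

lemma countable_of_spread {Z : Type u} [TopologicalSpace Z] (h : spread Z = ℵ₀)
    (D : Set Z) (hD : DiscreteTopology D) : D.Countable := by
  rw [← Cardinal.le_aleph0_iff_set_countable]
  have h1 : #D ≤ ⨆ D : {D : Set Z // DiscreteTopology D}, #D.1 :=
    le_ciSup (f := fun D : {D : Set Z // DiscreteTopology D} => #D.1) Cardinal.bddAbove_of_small
      (⟨D, hD⟩ : {D : Set Z // DiscreteTopology D})
  calc #D ≤ ⨆ D : {D : Set Z // DiscreteTopology D}, #D.1 := h1
    _ ≤ spread Z := le_add_self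
    _ = ℵ₀ := h

lemma spread_of_countable {Z : Type u} [TopologicalSpace Z]
    (h : ∀ D : Set Z, DiscreteTopology D → D.Countable) : spread Z = ℵ₀ := by
  apply le_antisymm _ le_self_add
  calc spread Z ≤ ℵ₀ + ℵ₀ := by
        apply add_le_add le_rfl
        apply ciSup_le'
        rintro ⟨D, hD⟩
        exact Cardinal.le_aleph0_iff_set_countable.mpr (h D hD)
    _ = ℵ₀ := by simp

/-- Families with neighbourhoods that contain no other member are countable. -/
lemma no_unc_discrete {Z : Type u} [TopologicalSpace Z]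
    (hs : ∀ D : Set Z, DiscreteTopology D → D.Countable) {ι : Type*} (h : ι → Z)
    (O : ι → Set Z) (hO : ∀ i, IsOpen (O i)) (hi : ∀ i, h i ∈ O i)
    (hij : ∀ i j, h j ∈ O i → j = i) : Countable ι := by
  have hinj : Function.Injective h := by
    intro i j hh
    exact hij j i (hh ▸ hi j)
  have hd : DiscreteTopology (range h) := by
    rw [discreteTopology_iff_isOpen_singleton]
    rintro ⟨_, i, rfl⟩
    refine ⟨O i, hO i, ?_⟩
    ext ⟨z, j, rfl⟩
    constructor
    · intro hz
      have := hij i j hz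
      subst this
      rfl
    · intro hz
      have hz' : h j = h i := congrArg Subtype.val hz
      change h j ∈ O i
      rw [hz']
      exact hi i
  have hc := hs (range h) hd
  have h1 : Countable (range h) := hc.to_subtype
  exact (Equiv.ofInjective h hinj).countable_iff.mpr h1

/-- Discrete subspaces have isolating open sets. -/
lemma exists_isolating {Z : Type u} [TopologicalSpace Z] {D : Set Z} (hD : DiscreteTopology D)
    (d : D) : ∃ O : Set Z, IsOpen O ∧ d.1 ∈ O ∧ ∀ e : D, e.1 ∈ O → e = d := by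
  obtain ⟨O, hO, hOe⟩ := isOpen_induced_iff.1 (isOpen_discrete ({d} : Set D))
  refine ⟨O, hO, ?_, fun e he => ?_⟩
  · have : d ∈ (Subtype.val ⁻¹' O : Set D) := by rw [hOe]; rfl
    exact this
  · have : e ∈ (Subtype.val ⁻¹' O : Set D) := he
    rw [hOe] at this
    exact this

section order

set_option linter.unusedSectionVars false

variable {W : Type} [LinearOrder W] [WellFoundedLT W]

lemma exists_bound (hc : ∀ a : W, (Iio a).Countable) (hu : ¬ Countable W)
    {A : Set W} (hA : A.Countable) : ∃ b, ∀ a ∈ A, a < b := by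
  by_contra h
  push Not at h
  apply hu
  rw [← Set.countable_univ_iff]
  have hsub : (univ : Set W) ⊆ ⋃ a ∈ A, Iic a := by
    intro x _
    obtain ⟨a, haA, hxa⟩ := h x
    exact mem_biUnion haA hxa
  refine (hA.biUnion ?_).mono hsub
  intro a _
  rw [← Iio_insert]
  exact (hc a).insert a

/-- Recursion along `W`: if every countable subset of `T` has a `good` element, then there is a
sequence each term of which is good for the set of the previous ones. -/
lemma rec_seq {T : Type u} (hc : ∀ a : W, (Iio a).Countable)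
    (good : Set T → T → Prop) (hg : ∀ B : Set T, B.Countable → ∃ t, good B t) :
    ∃ p : W → T, ∀ i, good (p '' Iio i) (p i) := by
  classical
  have key : ∀ (i : W) (f : (j : W) → j < i → T),
      ∃ t, good (Set.range (fun j : Iio i => f j.1 j.2)) t := by
    intro i f
    have : Countable (Iio i) := (hc i).to_subtype
    exact hg _ (countable_range _)
  let F : (i : W) → ((j : W) → j < i → T) → T := fun i f => Classical.choose (key i f)
  have hF : ∀ (i : W) (f : (j : W) → j < i → T),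
      good (Set.range (fun j : Iio i => f j.1 j.2)) (F i f) :=
    fun i f => Classical.choose_spec (key i f)
  let p : W → T := (wellFounded_lt (α := W)).fix F
  have hp : ∀ i, p i = F i (fun j _ => p j) := fun i => (wellFounded_lt (α := W)).fix_eq F i
  refine ⟨p, fun i => ?_⟩
  have h1 := hF i (fun j _ => p j)
  rw [← hp i] at h1
  have h2 : Set.range (fun j : Iio i => p j.1) = p '' Iio i := by
    ext t
    constructor
    · rintro ⟨⟨j, hj⟩, rfl⟩
      exact ⟨j, hj, rfl⟩
    · rintro ⟨j, hj, rfl⟩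
      exact ⟨⟨j, hj⟩, rfl⟩
  rw [← h2]
  exact h1

/-- Finite sets without bad pairs. -/
def Free (Bad : W → W → Prop) (E : Finset W) : Prop :=
  ∀ η ∈ E, ∀ ξ ∈ E, η < ξ → ¬ Bad η ξ

/-- There is no increasing sequence of finite blocks any two of which are joined by a bad pair. -/
def NoBlocks (Bad : W → W → Prop) : Prop :=
  ∀ E : W → Finset W, (∀ i, (E i).Nonempty) →
    (∀ i j, i < j → ∀ η ∈ E i, ∀ ξ ∈ E j, η < ξ) →
    (∀ i j, i < j → ∃ η ∈ E i, ∃ ξ ∈ E j, Bad η ξ) → False

/-- There is no uncountable family of pairwise incompatible finite sets of a fixed size. -/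
lemma no_antichain (hc : ∀ a : W, (Iio a).Countable) (hu : ¬ Countable W)
    {Bad : W → W → Prop} (hblk : NoBlocks Bad) (n : ℕ) :
    ∀ 𝒜 : Set (Finset W), (∀ E ∈ 𝒜, E.card = n) → (∀ E ∈ 𝒜, Free Bad E) →
      (∀ E ∈ 𝒜, ∀ E' ∈ 𝒜, E ≠ E' → ¬ Free Bad (E ∪ E')) → 𝒜.Countable := by
  classical
  induction n with
  | zero =>
    intro 𝒜 h1 _ _
    refine (Set.countable_singleton (∅ : Finset W)).mono ?_
    intro E hE
    exact Finset.card_eq_zero.mp (h1 E hE)
  | succ n ih =>
    intro 𝒜 h1 h2 h3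
    by_contra hunc
    -- each point lies in countably many members
    have hpt : ∀ w : W, {E ∈ 𝒜 | w ∈ E}.Countable := by
      intro w
      have hinj : Set.InjOn (fun E : Finset W => E.erase w) {E ∈ 𝒜 | w ∈ E} := by
        intro E hE E' hE' hEE'
        have h4 : E.erase w = E'.erase w := hEE'
        rw [← Finset.insert_erase hE.2, ← Finset.insert_erase hE'.2, h4]
      have h5 : ((fun E : Finset W => E.erase w) '' {E ∈ 𝒜 | w ∈ E}).Countable := by
        apply ih
        · rintro _ ⟨E, hE, rfl⟩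
          simp only [Finset.card_erase_of_mem hE.2, h1 E hE.1, Nat.add_sub_cancel]
        · rintro _ ⟨E, hE, rfl⟩ η hη ξ hξ hlt
          exact h2 E hE.1 η (Finset.mem_of_mem_erase hη) ξ (Finset.mem_of_mem_erase hξ) hlt
        · rintro _ ⟨E, hE, rfl⟩ _ ⟨E', hE', rfl⟩ hne hOK
          have hne' : E ≠ E' := by
            rintro rfl
            exact hne rfl
          apply h3 E hE.1 E' hE'.1 hne'
          intro η hη ξ hξ hlt
          by_cases h6 : η ∈ E ∧ ξ ∈ E
          · exact h2 E hE.1 η h6.1 ξ h6.2 hlt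
          by_cases h7 : η ∈ E' ∧ ξ ∈ E'
          · exact h2 E' hE'.1 η h7.1 ξ h7.2 hlt
          have hηw : η ≠ w := by
            rintro rfl
            rcases Finset.mem_union.mp hξ with h8 | h8
            · exact h6 ⟨hE.2, h8⟩
            · exact h7 ⟨hE'.2, h8⟩
          have hξw : ξ ≠ w := by
            rintro rfl
            rcases Finset.mem_union.mp hη with h8 | h8
            · exact h6 ⟨h8, hE.2⟩
            · exact h7 ⟨h8, hE'.2⟩
          refine hOK η ?_ ξ ?_ hlt
          · simp only [Finset.mem_union, Finset.mem_erase]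
            rcases Finset.mem_union.mp hη with h8 | h8
            · exact Or.inl ⟨hηw, h8⟩
            · exact Or.inr ⟨hηw, h8⟩
          · simp only [Finset.mem_union, Finset.mem_erase]
            rcases Finset.mem_union.mp hξ with h8 | h8
            · exact Or.inl ⟨hξw, h8⟩
            · exact Or.inr ⟨hξw, h8⟩
      exact Set.countable_of_injective_of_countable_image hinj h5
    -- choose an increasing sequence
    have hgood : ∀ B : Set 𝒜, B.Countable → ∃ E : 𝒜, ∀ E' ∈ B, ∀ η ∈ E'.1, ∀ ξ ∈ E.1, η < ξ := by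
      intro B hB
      have hU : (⋃ E' ∈ B, (E'.1 : Set W)).Countable :=
        hB.biUnion (fun E' _ => E'.1.countable_toSet)
      obtain ⟨b, hb⟩ := exists_bound hc hu hU
      have hbad : (⋃ w ∈ Iio b, {E ∈ 𝒜 | w ∈ E}).Countable :=
        (hc b).biUnion (fun w _ => hpt w)
      obtain ⟨E, hE, hEb⟩ : ∃ E ∈ 𝒜, E ∉ ⋃ w ∈ Iio b, {E ∈ 𝒜 | w ∈ E} := by
        by_contra hno
        push Not at hno
        exact hunc (hbad.mono hno)
      refine ⟨⟨E, hE⟩, fun E' hE' η hη ξ hξ => ?_⟩
      have h4 : η < b := hb η (mem_biUnion hE' hη)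
      have h5 : ¬ ξ < b := by
        intro h6
        exact hEb (mem_biUnion h6 ⟨hE, hξ⟩)
      exact h4.trans_le (not_lt.mp h5)
    obtain ⟨p, hp⟩ := rec_seq (W := W) hc
      (fun (B : Set 𝒜) (E : 𝒜) => ∀ E' ∈ B, ∀ η ∈ E'.1, ∀ ξ ∈ E.1, η < ξ) hgood
    have hlt : ∀ i j, i < j → ∀ η ∈ (p i).1, ∀ ξ ∈ (p j).1, η < ξ :=
      fun i j hij => hp j (p i) (mem_image_of_mem p hij)
    have hne : ∀ i, (p i).1.Nonempty := fun i => by
      rw [← Finset.card_pos, h1 _ (p i).2]
      exact Nat.succ_pos n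
    refine hblk (fun i => (p i).1) hne hlt ?_
    intro i j hij
    have hnij : (p i).1 ≠ (p j).1 := by
      intro h
      obtain ⟨ξ, hξ⟩ := hne i
      exact lt_irrefl ξ (hlt i j hij ξ hξ ξ (h ▸ hξ))
    have h4 := h3 _ (p i).2 _ (p j).2 hnij
    unfold Free at h4
    push Not at h4
    obtain ⟨η, hη, ξ, hξ, hηξ, h5⟩ := h4
    have hcase : η ∈ (p i).1 ∧ ξ ∈ (p j).1 := by
      rcases Finset.mem_union.mp hη with h6 | h6 <;> rcases Finset.mem_union.mp hξ with h7 | h7
      · exact absurd h5 (h2 _ (p i).2 η h6 ξ h7 hηξ)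
      · exact ⟨h6, h7⟩
      · exact absurd (hlt i j hij ξ h7 η h6) (lt_asymm hηξ)
      · exact absurd h5 (h2 _ (p j).2 η h6 ξ h7 hηξ)
    exact ⟨η, hcase.1, ξ, hcase.2, h5⟩

/-- Martin's axiom for `ℵ₁` dense sets gives an uncountable set without bad pairs. -/
theorem exists_free (hMA : MartinAxiomAlephOne) (hW : #W = ℵ₁)
    (hc : ∀ a : W, (Iio a).Countable) (hu : ¬ Countable W)
    {Bad : W → W → Prop} (hblk : NoBlocks Bad) :
    ∃ S : Set W, ¬ S.Countable ∧ ∀ η ∈ S, ∀ ξ ∈ S, η < ξ → ¬ Bad η ξ := by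
  classical
  -- the poset
  let P : Type := {E : (Finset W)ᵒᵈ // Free Bad (OrderDual.ofDual E)}
  have hccc : CCC P := by
    intro 𝒜 h𝒜
    let cv : P → Finset W := fun q => OrderDual.ofDual q.1
    have hcv : Function.Injective cv := fun a b h => Subtype.ext (OrderDual.ofDual.injective h)
    have h1 : ∀ n : ℕ, {E ∈ cv '' 𝒜 | E.card = n}.Countable := by
      intro n
      apply no_antichain hc hu hblk n
      · intro E hE
        exact hE.2
      · rintro _ ⟨⟨q, _, rfl⟩, _⟩
        exact q.2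
      · rintro _ ⟨⟨q, hq, rfl⟩, _⟩ _ ⟨⟨q', hq', rfl⟩, _⟩ hne hOK
        have hne' : q ≠ q' := by
          rintro rfl
          exact hne rfl
        apply h𝒜 q hq q' hq' hne'
        refine ⟨⟨OrderDual.toDual (cv q ∪ cv q'), hOK⟩, ?_, ?_⟩
        · exact Finset.subset_union_left
        · exact Finset.subset_union_right
    have h2 : (cv '' 𝒜).Countable := by
      refine (Set.countable_iUnion h1).mono ?_
      intro E hE
      exact mem_iUnion.mpr ⟨E.card, hE, rfl⟩
    exact Set.countable_of_injective_of_countable_image hcv.injOn h2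
  have hmem : ∀ q r : P, q ≤ r → ∀ ξ ∈ OrderDual.ofDual r.1, ξ ∈ OrderDual.ofDual q.1 :=
    fun q r h => h
  -- a condition forcing the generic to be unbounded
  have hp0 : ∃ p0 : P, ∀ α : W, ∀ q ≤ p0, ∃ r ≤ q, ∃ ξ ∈ OrderDual.ofDual r.1, α < ξ := by
    by_contra hno
    push Not at hno
    choose a Q hQ1 hQ2 using hno
    let sg : W → P := fun ξ => ⟨OrderDual.toDual {ξ}, by
      intro η hη ξ' hξ' hlt
      have h1 : η = ξ := by simpa using hη
      have h2 : ξ' = ξ := by simpa using hξ'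
      rw [h1, h2] at hlt
      exact absurd hlt (lt_irrefl _)⟩
    have hsg : ∀ ξ, ξ ∈ OrderDual.ofDual (Q (sg ξ)).1 := fun ξ =>
      hmem _ _ (hQ1 (sg ξ)) ξ (Finset.mem_singleton_self ξ)
    obtain ⟨t, ht⟩ := rec_seq (W := W) hc
      (fun (B : Set W) (t : W) => ∀ η ∈ B, a (sg η) < t) (by
        intro B hB
        obtain ⟨b, hb⟩ := exists_bound hc hu (hB.image (fun η => a (sg η)))
        exact ⟨b, fun η hη => hb _ (mem_image_of_mem _ hη)⟩)
    have ht' : ∀ j i, j < i → a (sg (t j)) < t i := fun j i hji => ht i (t j) (mem_image_of_mem t hji)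
    have hinc : ∀ j i, j < i → ¬ ∃ r : P, r ≤ Q (sg (t j)) ∧ r ≤ Q (sg (t i)) := by
      rintro j i hji ⟨r, hr1, hr2⟩
      exact hQ2 (sg (t j)) r hr1 (t i) (hmem _ _ hr2 _ (hsg (t i))) |>.not_gt (ht' j i hji)
    have hinj : Function.Injective (fun i => Q (sg (t i))) := by
      intro i j hij
      have hij' : Q (sg (t i)) = Q (sg (t j)) := hij
      rcases lt_trichotomy i j with h | h | h
      · exact absurd ⟨Q (sg (t i)), le_rfl, hij'.le⟩ (hinc i j h)
      · exact h
      · exact absurd ⟨Q (sg (t i)), hij'.le, le_rfl⟩ (hinc j i h)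
    have hcount := hccc (range (fun i => Q (sg (t i)))) (by
      rintro _ ⟨i, rfl⟩ _ ⟨j, rfl⟩ hne
      have hij : i ≠ j := by
        rintro rfl
        exact hne rfl
      rcases lt_or_gt_of_ne hij with h | h
      · exact hinc i j h
      · rintro ⟨r, hr1, hr2⟩
        exact hinc j i h ⟨r, hr2, hr1⟩)
    apply hu
    have h1 : Countable (range (fun i => Q (sg (t i)))) := hcount.to_subtype
    exact (Equiv.ofInjective _ hinj).countable_iff.mpr h1
  obtain ⟨p0, hp0⟩ := hp0
  let P' : Type := {q : P // q ≤ p0}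
  have hne' : Nonempty P' := ⟨⟨p0, le_rfl⟩⟩
  have hccc' : CCC P' := by
    intro 𝒜 h𝒜
    have h1 := hccc (Subtype.val '' 𝒜) (by
      rintro _ ⟨q, hq, rfl⟩ _ ⟨q', hq', rfl⟩ hne ⟨r, hr1, hr2⟩
      refine h𝒜 q hq q' hq' (fun h => hne (by rw [h])) ⟨⟨r, hr1.trans q.2⟩, hr1, hr2⟩)
    exact Set.countable_of_injective_of_countable_image Subtype.val_injective.injOn h1
  let Dn : W → Set P' := fun α => {q | ∃ ξ ∈ OrderDual.ofDual q.1.1, α < ξ}
  obtain ⟨G, _, hGup, hGdir, hGD⟩ := hMA P' hccc' (range Dn)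
    (Cardinal.mk_range_le.trans hW.le) (by
      rintro _ ⟨α, rfl⟩ q
      obtain ⟨r, hr, ξ, hξ, hα⟩ := hp0 α q.1 q.2
      exact ⟨⟨r, hr.trans q.2⟩, ⟨ξ, hξ, hα⟩, hr⟩)
  refine ⟨{ξ | ∃ q ∈ G, ξ ∈ OrderDual.ofDual q.1.1}, ?_, ?_⟩
  · intro hS
    obtain ⟨b, hb⟩ := exists_bound hc hu hS
    obtain ⟨q, hqG, ξ, hξ, hbξ⟩ := hGD (Dn b) (mem_range_self b)
    exact absurd (hb ξ ⟨q, hqG, hξ⟩) (lt_asymm hbξ)
  · rintro η ⟨q1, hq1, hη⟩ ξ ⟨q2, hq2, hξ⟩ hlt
    obtain ⟨r, _, hr1, hr2⟩ := hGdir q1 hq1 q2 hq2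
    exact r.1.2 η (hmem _ _ hr1 η hη) ξ (hmem _ _ hr2 ξ hξ) hlt

end order

/-- The well-ordered set of type `ω₁`. -/
lemma exists_omega_one : ∃ (W : Type) (_ : LinearOrder W) (_ : WellFoundedLT W),
    #W = ℵ₁ ∧ (∀ a : W, (Iio a).Countable) ∧ ¬ Countable W := by
  refine ⟨(Cardinal.aleph 1).ord.ToType, inferInstance, inferInstance, by simp, ?_, ?_⟩
  · intro a
    have h1 : #(Iio a) < #((Cardinal.aleph 1).ord.ToType) := Cardinal.mk_Iio_lt a (by simp)
    rw [Cardinal.mk_ord_toType] at h1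
    rw [← Cardinal.le_aleph0_iff_set_countable, ← Order.lt_succ_iff, ← Cardinal.aleph_zero,
      Cardinal.succ_aleph]
    simpa using h1
  · intro h
    have h1 := Cardinal.mk_le_aleph0_iff.mpr h
    rw [Cardinal.mk_ord_toType] at h1
    exact absurd h1 (not_le.mpr Cardinal.aleph0_lt_aleph_one)

section blocks

variable {W : Type} [LinearOrder W] [WellFoundedLT W] {X : Type u} [TopologicalSpace X]

/-- The block argument, common part: `σ` is the direction. -/
lemma noBlocks (hc : ∀ a : W, (Iio a).Countable) (hu : ¬ Countable W)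
    (hs : ∀ D : Set {f : X → ℝ // Continuous f}, DiscreteTopology D → D.Countable)
    (x : W → X) (g : W → X → ℝ) (hgc : ∀ ξ, Continuous (g ξ))
    (hg0 : ∀ ξ y, 0 ≤ g ξ y) (hg1 : ∀ ξ y, g ξ y ≤ 1) (hgx : ∀ ξ, g ξ (x ξ) = 1) :
    ((∀ ξ η, η < ξ → g ξ (x η) = 0) → NoBlocks fun η ξ => 1 / 2 < g η (x ξ)) ∧
    ((∀ ξ η, ξ < η → g ξ (x η) = 0) → NoBlocks fun η ξ => 1 / 2 < g ξ (x η)) := by
  classical
  have hsucc : ∀ i : W, ∃ j, i < j := by
    intro i
    obtain ⟨b, hb⟩ := exists_bound hc hu (A := {i}) (by simp)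
    exact ⟨b, hb i (by simp)⟩
  -- the successor of i
  let s : W → W := fun i => wellFounded_lt.min {j | i < j} (hsucc i)
  have hs1 : ∀ i, i < s i := fun i => wellFounded_lt.min_mem {j | i < j} (hsucc i)
  have hs2 : ∀ i j, i < j → s i ≤ j := by
    intro i j hij
    by_contra h
    exact wellFounded_lt.not_lt_min {j | i < j} (x := j) hij (lt_of_not_ge h)
  constructor
  · intro hgl E hne hlt hinc
    let F : W → X → ℝ := fun i y => (E i).sup' (hne i) (fun η => g η y)
    have hFc : ∀ i, Continuous (F i) := fun i =>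
      Continuous.finset_sup'_apply (hne i) (fun η _ => hgc η)
    have hF1 : ∀ i y, F i y ≤ 1 := fun i y => Finset.sup'_le _ _ (fun η _ => hg1 η y)
    have hF0 : ∀ i y, 0 ≤ F i y := fun i y => by
      obtain ⟨η, hη⟩ := hne i
      exact (hg0 η y).trans (Finset.le_sup' (fun η => g η y) hη)
    have hFlow : ∀ i j, i < j → ∀ ξ ∈ E i, F j (x ξ) = 0 := by
      intro i j hij ξ hξ
      apply le_antisymm
      · apply Finset.sup'_le
        intro η hη
        exact (hgl η ξ (hlt i j hij ξ hξ η hη)).le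
      · exact hF0 _ _
    have hFeq : ∀ i, ∀ ξ ∈ E i, F i (x ξ) = 1 := by
      intro i ξ hξ
      apply le_antisymm (hF1 _ _)
      have := Finset.le_sup' (fun η => g η (x ξ)) hξ
      rw [hgx ξ] at this
      exact this
    have hFhigh : ∀ i j, i < j → ∃ ξ ∈ E j, 1 / 2 < F i (x ξ) := by
      intro i j hij
      obtain ⟨η, hη, ξ, hξ, h⟩ := hinc i j hij
      exact ⟨ξ, hξ, h.trans_le (Finset.le_sup' (fun η => g η (x ξ)) hη)⟩
    apply hu
    refine no_unc_discrete hs (ι := W)
      (fun i => ⟨fun y => F i y - F (s i) y, (hFc i).sub (hFc (s i))⟩)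
      (fun i => {f | ∀ ξ ∈ E i, 1 / 2 < f.1 (x ξ)}) ?_ ?_ ?_
    · intro i
      have h1 : {f : {f : X → ℝ // Continuous f} | ∀ ξ ∈ E i, 1 / 2 < f.1 (x ξ)}
          = ⋂ ξ ∈ E i, {f | 1 / 2 < f.1 (x ξ)} := by
        ext f
        simp
      rw [h1]
      apply isOpen_biInter_finset
      intro ξ _
      exact isOpen_lt continuous_const ((continuous_apply (x ξ)).comp continuous_subtype_val)
    · intro i ξ hξ
      change 1 / 2 < F i (x ξ) - F (s i) (x ξ)
      rw [hFeq i ξ hξ, hFlow i (s i) (hs1 i) ξ hξ]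
      norm_num
    · intro i j hj
      have hj' : ∀ ξ ∈ E i, 1 / 2 < F j (x ξ) - F (s j) (x ξ) := hj
      rcases lt_trichotomy i j with h | h | h
      · exfalso
        obtain ⟨ξ, hξ⟩ := hne i
        have h1 := hj' ξ hξ
        rw [hFlow i j h ξ hξ, hFlow i (s j) (h.trans (hs1 j)) ξ hξ] at h1
        norm_num at h1
      · exact h.symm
      · exfalso
        rcases lt_or_eq_of_le (hs2 j i h) with h2 | h2
        · obtain ⟨ξ, hξ, h3⟩ := hFhigh (s j) i h2
          have h1 := hj' ξ hξ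
          have h4 := hF1 j (x ξ)
          linarith
        · obtain ⟨ξ, hξ⟩ := hne i
          have h1 := hj' ξ hξ
          rw [h2, hFeq i ξ hξ] at h1
          have h4 := hF1 j (x ξ)
          linarith
  · intro hgr E hne hlt hinc
    let F : W → X → ℝ := fun i y => (E i).sup' (hne i) (fun η => g η y)
    have hFc : ∀ i, Continuous (F i) := fun i =>
      Continuous.finset_sup'_apply (hne i) (fun η _ => hgc η)
    have hF1 : ∀ i y, F i y ≤ 1 := fun i y => Finset.sup'_le _ _ (fun η _ => hg1 η y)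
    have hF0 : ∀ i y, 0 ≤ F i y := fun i y => by
      obtain ⟨η, hη⟩ := hne i
      exact (hg0 η y).trans (Finset.le_sup' (fun η => g η y) hη)
    have hFzero : ∀ i j, i < j → ∀ ξ ∈ E j, F i (x ξ) = 0 := by
      intro i j hij ξ hξ
      apply le_antisymm
      · apply Finset.sup'_le
        intro η hη
        exact (hgr η ξ (hlt i j hij η hη ξ hξ)).le
      · exact hF0 _ _
    have hFeq : ∀ i, ∀ ξ ∈ E i, F i (x ξ) = 1 := by
      intro i ξ hξ
      apply le_antisymm (hF1 _ _)
      have := Finset.le_sup' (fun η => g η (x ξ)) hξ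
      rw [hgx ξ] at this
      exact this
    have hFhigh : ∀ i j, i < j → ∃ η ∈ E i, 1 / 2 < F j (x η) := by
      intro i j hij
      obtain ⟨η, hη, ξ, hξ, h⟩ := hinc i j hij
      exact ⟨η, hη, h.trans_le (Finset.le_sup' (fun ξ => g ξ (x η)) hξ)⟩
    apply hu
    refine no_unc_discrete hs (ι := W)
      (fun i => ⟨fun y => F (s i) y - F i y, (hFc (s i)).sub (hFc i)⟩)
      (fun i => {f | ∀ ξ ∈ E (s i), 1 / 2 < f.1 (x ξ)}) ?_ ?_ ?_
    · intro i
      have h1 : {f : {f : X → ℝ // Continuous f} | ∀ ξ ∈ E (s i), 1 / 2 < f.1 (x ξ)}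
          = ⋂ ξ ∈ E (s i), {f | 1 / 2 < f.1 (x ξ)} := by
        ext f
        simp
      rw [h1]
      apply isOpen_biInter_finset
      intro ξ _
      exact isOpen_lt continuous_const ((continuous_apply (x ξ)).comp continuous_subtype_val)
    · intro i ξ hξ
      change 1 / 2 < F (s i) (x ξ) - F i (x ξ)
      rw [hFeq (s i) ξ hξ, hFzero i (s i) (hs1 i) ξ hξ]
      norm_num
    · intro i j hj
      have hj' : ∀ ξ ∈ E (s i), 1 / 2 < F (s j) (x ξ) - F j (x ξ) := hj
      rcases lt_trichotomy i j with h | h | h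
      · exfalso
        rcases lt_or_eq_of_le (hs2 i j h) with h2 | h2
        · obtain ⟨ξ, hξ, h3⟩ := hFhigh (s i) j h2
          have h1 := hj' ξ hξ
          have h4 := hF1 (s j) (x ξ)
          linarith
        · obtain ⟨ξ, hξ⟩ := hne (s i)
          have h1 := hj' ξ hξ
          have h4 := hF1 (s j) (x ξ)
          have h5 := hFeq j ξ (h2 ▸ hξ)
          rw [h5] at h1
          linarith
      · exact h.symm
      · exfalso
        obtain ⟨ξ, hξ⟩ := hne (s i)
        have h1 := hj' ξ hξ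
        have h3 : s j < s i := (hs2 j i h).trans_lt (hs1 i)
        rw [hFzero (s j) (s i) h3 ξ hξ] at h1
        have h4 := hF0 j (x ξ)
        linarith

end blocks

/-- Under Martin's axiom for `ℵ₁` dense sets, countable spread of the function space implies that
the space is hereditarily separable. -/
theorem hsep (hMA : MartinAxiomAlephOne) (X : Type u) [TopologicalSpace X] [T35Space X]
    (hs : ∀ D : Set {f : X → ℝ // Continuous f}, DiscreteTopology D → D.Countable) :
    HereditarilySeparable X := by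
  classical
  intro A
  by_contra hcon
  push Not at hcon
  obtain ⟨W, _, _, hW, hc, hu⟩ := exists_omega_one
  -- the left separated sequence
  have hgood : ∀ B : Set A, B.Countable → ∃ t : A, (t : X) ∉ closure (Subtype.val '' B) := by
    intro B hB
    have h1 := hcon (Subtype.val '' B) (by rintro _ ⟨a, _, rfl⟩; exact a.2) (hB.image _)
    rw [Set.not_subset] at h1
    obtain ⟨a, haA, ha⟩ := h1
    exact ⟨⟨a, haA⟩, ha⟩
  obtain ⟨p, hp⟩ := rec_seq (W := W) hc
    (fun (B : Set A) (t : A) => (t : X) ∉ closure (Subtype.val '' B)) hgood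
  let x : W → X := fun i => (p i : X)
  have hx : ∀ i, x i ∉ closure (x '' Iio i) := by
    intro i
    have h1 := hp i
    rw [Set.image_image] at h1
    exact h1
  have hcr : ∀ i, ∃ f : X → unitInterval, Continuous f ∧ f (x i) = 0 ∧
      Set.EqOn f 1 (closure (x '' Iio i)) := fun i =>
    CompletelyRegularSpace.completely_regular (x i) (closure (x '' Iio i)) isClosed_closure (hx i)
  choose f hfc hf0 hf1 using hcr
  let g : W → X → ℝ := fun i y => 1 - (f i y : ℝ)
  have hgc : ∀ ξ, Continuous (g ξ) := fun ξ =>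
    continuous_const.sub (continuous_subtype_val.comp (hfc ξ))
  have hg0 : ∀ ξ y, 0 ≤ g ξ y := fun ξ y => sub_nonneg.mpr (f ξ y).2.2
  have hg1 : ∀ ξ y, g ξ y ≤ 1 := fun ξ y => sub_le_self _ (f ξ y).2.1
  have hgx : ∀ ξ, g ξ (x ξ) = 1 := fun ξ => by simp [g, hf0 ξ]
  have hgl : ∀ ξ η, η < ξ → g ξ (x η) = 0 := by
    intro ξ η h
    have h1 : f ξ (x η) = 1 := hf1 ξ (subset_closure (mem_image_of_mem x h))
    simp [g, h1]
  obtain ⟨S, hSunc, hSOK⟩ := exists_free hMA hW hc hu ((noBlocks hc hu hs x g hgc hg0 hg1 hgx).1 hgl)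
  apply hSunc
  have hfin : Countable S := no_unc_discrete hs (ι := S)
    (fun ξ => ⟨g ξ.1, hgc ξ.1⟩) (fun ξ => {f | 1 / 2 < f.1 (x ξ.1)})
    (fun ξ => isOpen_lt continuous_const
      ((continuous_apply (x ξ.1)).comp continuous_subtype_val))
    (fun ξ => by
      change 1 / 2 < g ξ.1 (x ξ.1)
      rw [hgx]
      norm_num)
    (fun i j hj => by
      have hj' : 1 / 2 < g j.1 (x i.1) := hj
      rcases lt_trichotomy i.1 j.1 with h | h | h
      · rw [hgl j.1 i.1 h] at hj'
        norm_num at hj'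
      · exact Subtype.ext h.symm
      · exact absurd hj' (hSOK j.1 j.2 i.1 i.2 h))
  exact hfin.to_set

/-- Under Martin's axiom for `ℵ₁` dense sets, countable spread of the function space implies that
the space is hereditarily Lindelof. -/
theorem hlin (hMA : MartinAxiomAlephOne) (X : Type u) [TopologicalSpace X] [T35Space X]
    (hs : ∀ D : Set {f : X → ℝ // Continuous f}, DiscreteTopology D → D.Countable) :
    HereditarilyLindelof X := by
  classical
  intro 𝒪 h𝒪
  by_contra hcon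
  push Not at hcon
  obtain ⟨W, _, _, hW, hc, hu⟩ := exists_omega_one
  -- the right separated sequence
  have hgood : ∀ B : Set {t : X × Set X // t.2 ∈ 𝒪 ∧ t.1 ∈ t.2}, B.Countable →
      ∃ t : {t : X × Set X // t.2 ∈ 𝒪 ∧ t.1 ∈ t.2}, ∀ b ∈ B, t.1.1 ∉ b.1.2 := by
    intro B hB
    have h1 := hcon ((fun b => b.1.2) '' B) (by rintro _ ⟨b, _, rfl⟩; exact b.2.1) (hB.image _)
    by_contra h2
    push Not at h2
    apply h1
    apply Subset.antisymm
    · apply sUnion_subset_sUnion
      rintro _ ⟨b, _, rfl⟩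
      exact b.2.1
    · rintro y ⟨O, hO, hyO⟩
      obtain ⟨b, hb, hyb⟩ := h2 ⟨(y, O), hO, hyO⟩
      exact ⟨b.1.2, ⟨b, hb, rfl⟩, hyb⟩
  obtain ⟨p, hp⟩ := rec_seq (W := W) hc
    (fun (B : Set {t : X × Set X // t.2 ∈ 𝒪 ∧ t.1 ∈ t.2}) t => ∀ b ∈ B, t.1.1 ∉ b.1.2) hgood
  let x : W → X := fun i => (p i).1.1
  have hx : ∀ i j, i < j → x j ∉ (p i).1.2 := fun i j hij =>
    hp j (p i) (mem_image_of_mem p hij)
  have hcr : ∀ i, ∃ f : X → unitInterval, Continuous f ∧ f (x i) = 0 ∧
      Set.EqOn f 1 ((p i).1.2)ᶜ := fun i =>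
    CompletelyRegularSpace.completely_regular (x i) ((p i).1.2)ᶜ
      (h𝒪 _ (p i).2.1).isClosed_compl (fun h => h (p i).2.2)
  choose f hfc hf0 hf1 using hcr
  let g : W → X → ℝ := fun i y => 1 - (f i y : ℝ)
  have hgc : ∀ ξ, Continuous (g ξ) := fun ξ =>
    continuous_const.sub (continuous_subtype_val.comp (hfc ξ))
  have hg0 : ∀ ξ y, 0 ≤ g ξ y := fun ξ y => sub_nonneg.mpr (f ξ y).2.2
  have hg1 : ∀ ξ y, g ξ y ≤ 1 := fun ξ y => sub_le_self _ (f ξ y).2.1
  have hgx : ∀ ξ, g ξ (x ξ) = 1 := fun ξ => by simp [g, hf0 ξ]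
  have hgr : ∀ ξ η, ξ < η → g ξ (x η) = 0 := by
    intro ξ η h
    have h1 : f ξ (x η) = 1 := hf1 ξ (hx ξ η h)
    simp [g, h1]
  obtain ⟨S, hSunc, hSOK⟩ := exists_free hMA hW hc hu ((noBlocks hc hu hs x g hgc hg0 hg1 hgx).2 hgr)
  apply hSunc
  have hfin : Countable S := no_unc_discrete hs (ι := S)
    (fun ξ => ⟨g ξ.1, hgc ξ.1⟩) (fun ξ => {f | 1 / 2 < f.1 (x ξ.1)})
    (fun ξ => isOpen_lt continuous_const
      ((continuous_apply (x ξ.1)).comp continuous_subtype_val))
    (fun ξ => by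
      change 1 / 2 < g ξ.1 (x ξ.1)
      rw [hgx]
      norm_num)
    (fun i j hj => by
      have hj' : 1 / 2 < g j.1 (x i.1) := hj
      rcases lt_trichotomy i.1 j.1 with h | h | h
      · exact absurd hj' (hSOK i.1 i.2 j.1 j.2 h)
      · exact Subtype.ext h.symm
      · rw [hgr j.1 i.1 h] at hj'
        norm_num at hj')
  exact hfin.to_set


section powers

variable {X : Type u} [TopologicalSpace X]

/-- A bump function at a point of a completely regular space. -/
lemma exists_bump [T35Space X] (x : X) (U : Set X) (hU : IsOpen U) (hx : x ∈ U) :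
    ∃ f : X → ℝ, Continuous f ∧ f x = 1 ∧ (∀ y, 0 ≤ f y) ∧ (∀ y, f y ≤ 1) ∧
      ∀ y, 0 < f y → y ∈ U := by
  obtain ⟨f, hf, hf0, hf1⟩ := CompletelyRegularSpace.completely_regular x Uᶜ
    hU.isClosed_compl (fun h => h hx)
  refine ⟨fun y => 1 - (f y : ℝ), continuous_const.sub (continuous_subtype_val.comp hf), ?_,
    fun y => sub_nonneg.mpr (f y).2.2, fun y => sub_le_self _ (f y).2.1, fun y hy => ?_⟩
  · simp [hf0]
  · by_contra h
    have h1 : f y = 1 := hf1 h
    have h2 : (0 : ℝ) < 1 - (f y : ℝ) := hy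
    rw [h1] at h2
    simp at h2

/-- The square has countable spread. -/
theorem spread_square [T35Space X]
    (hs : ∀ D : Set {f : X → ℝ // Continuous f}, DiscreteTopology D → D.Countable)
    (D : Set (X × X)) (hD : DiscreteTopology D) : D.Countable := by
  classical
  have h1 : ∀ d : D, ∃ U V : Set X, IsOpen U ∧ IsOpen V ∧ d.1.1 ∈ U ∧ d.1.2 ∈ V ∧
      ∀ e : D, e.1.1 ∈ U → e.1.2 ∈ V → e = d := by
    intro d
    obtain ⟨O, hO, hdO, hO'⟩ := exists_isolating hD d
    obtain ⟨U, V, hU, hV, hdU, hdV, hUV⟩ := isOpen_prod_iff.1 hO d.1.1 d.1.2 hdO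
    exact ⟨U, V, hU, hV, hdU, hdV, fun e h2 h3 => hO' e (hUV ⟨h2, h3⟩)⟩
  choose U V hU hV hdU hdV hUV using h1
  have hdiag : Countable {d : D // d.1.1 = d.1.2} := by
    have h2 : ∀ d : {d : D // d.1.1 = d.1.2}, ∃ f : X → ℝ, Continuous f ∧ f d.1.1.1 = 1 ∧
        (∀ y, 0 ≤ f y) ∧ (∀ y, f y ≤ 1) ∧ ∀ y, 0 < f y → y ∈ U d.1 ∩ V d.1 := fun d =>
      exists_bump d.1.1.1 _ ((hU d.1).inter (hV d.1)) ⟨hdU d.1, by
        have h3 := hdV d.1
        rw [← d.2] at h3
        exact h3⟩
    choose f hf hf1 hf2 hf3 hf4 using h2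
    refine no_unc_discrete hs (fun d => ⟨f d, hf d⟩)
      (fun d => {g | 1 / 2 < g.1 d.1.1.1}) (fun d => isOpen_lt continuous_const
        ((continuous_apply _).comp continuous_subtype_val)) ?_ ?_
    · intro d
      change 1 / 2 < f d d.1.1.1
      rw [hf1]
      norm_num
    · intro d e he
      have he' : 1 / 2 < f e d.1.1.1 := he
      have h3 := hf4 e d.1.1.1 (by linarith)
      have h4 := hUV e.1 d.1 h3.1 (by rw [← d.2]; exact h3.2)
      exact Subtype.ext h4.symm
  have hoff : Countable {d : D // d.1.1 ≠ d.1.2} := by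
    have h2 : ∀ d : {d : D // d.1.1 ≠ d.1.2}, ∃ f : X → ℝ, Continuous f ∧ f d.1.1.1 = 1 ∧
        f d.1.1.2 = -1 ∧ (∀ y, 0 < f y → y ∈ U d.1) ∧ (∀ y, f y < 0 → y ∈ V d.1) := by
      intro d
      obtain ⟨φ, hφ, hφ1, hφ2, hφ3, hφ4⟩ := exists_bump d.1.1.1 (U d.1 ∩ {d.1.1.2}ᶜ)
        ((hU d.1).inter isOpen_compl_singleton) ⟨hdU d.1, d.2⟩
      obtain ⟨ψ, hψ, hψ1, hψ2, hψ3, hψ4⟩ := exists_bump d.1.1.2 (V d.1 ∩ {d.1.1.1}ᶜ)
        ((hV d.1).inter isOpen_compl_singleton) ⟨hdV d.1, fun h => d.2 h.symm⟩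
      have h3 : φ d.1.1.2 = 0 := by
        apply le_antisymm _ (hφ2 _)
        by_contra h
        exact (hφ4 _ (not_le.1 h)).2 rfl
      have h4 : ψ d.1.1.1 = 0 := by
        apply le_antisymm _ (hψ2 _)
        by_contra h
        exact (hψ4 _ (not_le.1 h)).2 rfl
      refine ⟨fun y => φ y - ψ y, hφ.sub hψ, ?_, ?_, ?_, ?_⟩
      · simp only [hφ1, h4]; norm_num
      · simp only [hψ1, h3]; norm_num
      · intro y hy
        have := hψ2 y
        exact (hφ4 y (by linarith)).1
      · intro y hy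
        have := hφ2 y
        exact (hψ4 y (by linarith)).1
    choose f hf hf1 hf2 hf3 hf4 using h2
    refine no_unc_discrete hs (fun d => ⟨f d, hf d⟩)
      (fun d => {g | 1 / 2 < g.1 d.1.1.1} ∩ {g | g.1 d.1.1.2 < -(1 / 2)}) (fun d =>
        (isOpen_lt continuous_const
        ((continuous_apply _).comp continuous_subtype_val)).inter
        (isOpen_lt ((continuous_apply _).comp continuous_subtype_val) continuous_const)) ?_ ?_
    · intro d
      constructor
      · change 1 / 2 < f d d.1.1.1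
        rw [hf1]
        norm_num
      · change f d d.1.1.2 < -(1 / 2)
        rw [hf2]
        norm_num
    · rintro d e ⟨he1, he2⟩
      have he1' : 1 / 2 < f e d.1.1.1 := he1
      have he2' : f e d.1.1.2 < -(1 / 2) := he2
      have h4 := hUV e.1 d.1 (hf3 e _ (by linarith)) (hf4 e _ (by linarith))
      exact Subtype.ext h4.symm
  have h5 : Countable D := by
    have h6 : Countable ({d : D // d.1.1 = d.1.2} ⊕ {d : D // ¬ d.1.1 = d.1.2}) := by
      have := hdiag
      have : Countable {d : D // ¬ d.1.1 = d.1.2} := hoff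
      infer_instance
    exact (Equiv.sumCompl (fun d : D => d.1.1 = d.1.2)).symm.countable_iff.2 h6
  exact Set.countable_coe_iff.1 h5

/-- Coding functions on zero-dimensional spaces. -/
lemma exists_code (hz : ZeroDimensional X) [T1Space X] {κ : Type} [Fintype κ] (d : κ → X)
    (c : κ → ℕ) (hc : ∀ i j, d i = d j ↔ c i = c j) (U : κ → Set X) (hU : ∀ i, IsOpen (U i))
    (hd : ∀ i, d i ∈ U i) :
    ∃ f : X → ℝ, Continuous f ∧ (∀ i, f (d i) = c i + 1) ∧
      ∀ i y, |f y - (c i + 1)| < 1 / 2 → y ∈ U i := by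
  classical
  have h1 : ∀ p : X, ∃ C : Set X, IsClopen C ∧ p ∈ C ∧
      C ⊆ ⋂ j : κ, (if d j = p then U j else {d j}ᶜ) := by
    intro p
    apply hz
    · apply isOpen_iInter_of_finite
      intro j
      split_ifs
      · exact hU j
      · exact isOpen_compl_singleton
    · rw [mem_iInter]
      intro j
      split_ifs with h
      · rw [← h]
        exact hd j
      · exact fun h' => h (mem_singleton_iff.1 h').symm
  choose C hC hpC hCs using h1
  let F : X → ℕ := fun y => Finset.univ.sup (fun i : κ => (C (d i)).piecewise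
    (fun _ => c i + 1) (fun _ => 0) y)
  have hF : Continuous F := by
    apply Continuous.finset_sup_apply
    intro i _
    exact Continuous.piecewise (by rw [(hC (d i)).frontier_eq]; simp) continuous_const
      continuous_const
  have hval : ∀ i, F (d i) = c i + 1 := by
    intro i
    apply le_antisymm
    · apply Finset.sup_le
      intro j _
      by_cases h : d i ∈ C (d j)
      · rw [Set.piecewise_eq_of_mem _ _ _ h]
        have h2 := mem_iInter.1 (hCs (d j) h) i
        by_cases h3 : d i = d j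
        · rw [(hc i j).1 h3]
        · rw [if_neg h3] at h2
          exact absurd rfl h2
      · rw [Set.piecewise_eq_of_notMem _ _ _ h]
        exact Nat.zero_le _
    · have h2 := Finset.le_sup (f := fun i : κ => (C (d i)).piecewise
        (fun _ => c i + 1) (fun _ => 0) (d i)) (Finset.mem_univ i)
      have h3 : (C (d i)).piecewise (fun _ => c i + 1) (fun _ => 0) (d i) = c i + 1 :=
        Set.piecewise_eq_of_mem _ _ _ (hpC (d i))
      calc c i + 1 = (C (d i)).piecewise (fun _ => c i + 1) (fun _ => 0) (d i) := h3.symm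
        _ ≤ F (d i) := Finset.le_sup (f := fun j : κ => (C (d j)).piecewise
            (fun _ => c j + 1) (fun _ => 0) (d i)) (Finset.mem_univ i)
  refine ⟨fun y => (F y : ℝ), continuous_of_discreteTopology.comp hF, ?_, ?_⟩
  · intro i
    show ((F (d i) : ℕ) : ℝ) = c i + 1
    rw [hval i]
    push_cast
    ring
  · intro i y hy
    have h2 : F y = c i + 1 := by
      have h3 : |((F y : ℤ) : ℝ) - ((c i + 1 : ℕ) : ℤ)| < 1 := by
        push_cast
        push_cast at hy
        linarith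
      have h4 : |(F y : ℤ) - ((c i + 1 : ℕ) : ℤ)| < 1 := by exact_mod_cast h3
      have h5 := Int.abs_lt_one_iff.1 h4
      omega
    -- the supremum is attained
    have hne : (Finset.univ : Finset κ).Nonempty := ⟨i, Finset.mem_univ i⟩
    obtain ⟨j, _, hj⟩ := Finset.exists_mem_eq_sup Finset.univ hne
      (fun i : κ => (C (d i)).piecewise (fun _ => c i + 1) (fun _ => 0) y)
    have h6 : (C (d j)).piecewise (fun _ => c j + 1) (fun _ => 0) y = c i + 1 := by
      rw [← h2]
      exact hj.symm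
    by_cases h7 : y ∈ C (d j)
    · rw [Set.piecewise_eq_of_mem _ _ _ h7] at h6
      have h8 : c i = c j := by
        have : c j + 1 = c i + 1 := h6
        omega
      have h9 := (hc i j).2 h8
      have h10 := mem_iInter.1 (hCs (d j) h7) i
      rw [if_pos h9] at h10
      exact h10
    · rw [Set.piecewise_eq_of_notMem _ _ _ h7] at h6
      have : (0 : ℕ) = c i + 1 := h6
      omega

/-- Finite powers of zero-dimensional spaces. -/
theorem spread_pow (hz : ZeroDimensional X) [T1Space X]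
    (hs : ∀ D : Set {f : X → ℝ // Continuous f}, DiscreteTopology D → D.Countable)
    {κ : Type} [Fintype κ] (D : Set (κ → X)) (hD : DiscreteTopology D) : D.Countable := by
  classical
  have h1 : ∀ d : D, ∃ U : κ → Set X, (∀ i, IsOpen (U i)) ∧ (∀ i, d.1 i ∈ U i) ∧
      ∀ e : D, (∀ i, e.1 i ∈ U i) → e = d := by
    intro d
    obtain ⟨O, hO, hdO, hO'⟩ := exists_isolating hD d
    obtain ⟨U, hU, hUO⟩ := isOpen_pi_iff'.1 hO d.1 hdO
    exact ⟨U, fun i => (hU i).1, fun i => (hU i).2, fun e he => hO' e (hUO (fun i _ => he i))⟩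
  choose U hU hdU hUe using h1
  have hcode : ∀ d : D, ∃ c : κ → ℕ, ∀ i j, d.1 i = d.1 j ↔ c i = c j := by
    intro d
    let r : κ → κ := fun i => Classical.choose (⟨i, rfl⟩ : ∃ j, d.1 j = d.1 i)
    have hr : ∀ i, d.1 (r i) = d.1 i := fun i =>
      Classical.choose_spec (⟨i, rfl⟩ : ∃ j, d.1 j = d.1 i)
    refine ⟨fun i => (Fintype.equivFin κ (r i)).val, fun i j => ⟨fun h => ?_, fun h => ?_⟩⟩
    · have : r i = r j := by
        simp only [r, h]
      simp only [this]
    · have h2 : r i = r j := (Fintype.equivFin κ).injective (Fin.ext h)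
      rw [← hr i, ← hr j, h2]
  choose c hc using hcode
  have hclass : ∀ c₀ : κ → ℕ, Countable {d : D // c d = c₀} := by
    intro c₀
    have h2 : ∀ d : {d : D // c d = c₀}, ∃ f : X → ℝ, Continuous f ∧
        (∀ i, f (d.1.1 i) = c₀ i + 1) ∧ ∀ i y, |f y - (c₀ i + 1)| < 1 / 2 → y ∈ U d.1 i := by
      intro d
      apply exists_code hz d.1.1 c₀ _ (U d.1) (hU d.1) (hdU d.1)
      intro i j
      have h3 := hc d.1 i j
      rw [d.2] at h3
      exact h3
    choose f hf hf1 hf2 using h2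
    refine no_unc_discrete hs (fun d => ⟨f d, hf d⟩)
      (fun d => {g | ∀ i, |g.1 (d.1.1 i) - ((c₀ i : ℝ) + 1)| < 1 / 2}) (fun d => ?_) ?_ ?_
    · have h3 : {g : {f : X → ℝ // Continuous f} | ∀ i, |g.1 (d.1.1 i) - ((c₀ i : ℝ) + 1)| < 1 / 2} =
          ⋂ i, {g | |g.1 (d.1.1 i) - ((c₀ i : ℝ) + 1)| < 1 / 2} := by
        ext g
        simp
      rw [h3]
      apply isOpen_iInter_of_finite
      intro i
      exact isOpen_lt (((continuous_apply (d.1.1 i)).comp continuous_subtype_val).sub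
        continuous_const).abs continuous_const
    · intro d i
      change |f d (d.1.1 i) - (c₀ i + 1)| < 1 / 2
      rw [hf1]
      norm_num
    · intro d e he
      have he' : ∀ i, |f e (d.1.1 i) - (c₀ i + 1)| < 1 / 2 := he
      have h4 := hUe e.1 d.1 (fun i => hf2 e i _ (he' i))
      exact Subtype.ext h4.symm
  have h5 : (univ : Set D) = ⋃ c₀ : κ → ℕ, {d : D | c d = c₀} := by
    ext d
    simp
  have h6 : (univ : Set D).Countable := by
    rw [h5]
    exact countable_iUnion fun c₀ => Set.countable_coe_iff.1 (hclass c₀)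
  exact Set.countable_coe_iff.1 (Set.countable_univ_iff.1 h6)

/-- Countable spread of all finite powers gives countable spread of the function space. -/
theorem spread_Cp {Z : Type u} [TopologicalSpace Z]
    (hZ : ∀ (m : ℕ) (D : Set (Fin m → Z)), DiscreteTopology D → D.Countable)
    (D : Set {f : Z → ℝ // Continuous f}) (hD : DiscreteTopology D) : D.Countable := by
  classical
  have h1 : ∀ f : D, ∃ q : (Σ m : ℕ, Fin m → ℚ × ℚ), ∃ x : Fin q.1 → Z,
      (∀ k, f.1.1 (x k) ∈ Ioo ((q.2 k).1 : ℝ) ((q.2 k).2 : ℝ)) ∧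
      ∀ g : D, (∀ k, g.1.1 (x k) ∈ Ioo ((q.2 k).1 : ℝ) ((q.2 k).2 : ℝ)) → g = f := by
    intro f
    obtain ⟨O, hO, hfO, hO'⟩ := exists_isolating hD f
    obtain ⟨O₁, hO₁, rfl⟩ := isOpen_induced_iff.1 hO
    obtain ⟨I, v, hv, hI⟩ := isOpen_pi_iff.1 hO₁ f.1.1 hfO
    have h2 : ∀ a : I, ∃ q : ℚ × ℚ, f.1.1 a.1 ∈ Ioo (q.1 : ℝ) (q.2 : ℝ) ∧
        Ioo (q.1 : ℝ) (q.2 : ℝ) ⊆ v a.1 := by
      rintro ⟨a, ha⟩
      obtain ⟨ho, hm⟩ := hv a ha
      obtain ⟨ε, hε, hball⟩ := Metric.isOpen_iff.1 ho _ hm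
      obtain ⟨q, hq1, hq2⟩ := exists_rat_btwn (show f.1.1 a - ε < f.1.1 a by linarith)
      obtain ⟨q', hq1', hq2'⟩ := exists_rat_btwn (show f.1.1 a < f.1.1 a + ε by linarith)
      refine ⟨(q, q'), ⟨hq2, hq1'⟩, ?_⟩
      intro z hz
      apply hball
      rw [Metric.mem_ball, Real.dist_eq, abs_lt]
      constructor <;> linarith [hz.1, hz.2]
    choose q hq1 hq2 using h2
    refine ⟨⟨Fintype.card I, fun k => q ((Fintype.equivFin I).symm k)⟩,
      fun k => ((Fintype.equivFin I).symm k).1, fun k => hq1 _, fun g hg => hO' g ?_⟩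
    apply hI
    intro a ha
    have h3 := hg (Fintype.equivFin I ⟨a, ha⟩)
    simp only [Equiv.symm_apply_apply] at h3
    exact hq2 ⟨a, ha⟩ h3
  choose q x hx hxg using h1
  have hclass : ∀ q₀ : (Σ m : ℕ, Fin m → ℚ × ℚ), Countable {f : D // q f = q₀} := by
    rintro ⟨m, r⟩
    have h2 : ∀ f : {f : D // q f = ⟨m, r⟩}, ∃ y : Fin m → Z,
        (∀ k, f.1.1.1 (y k) ∈ Ioo ((r k).1 : ℝ) ((r k).2 : ℝ)) ∧
        ∀ g : D, (∀ k, g.1.1 (y k) ∈ Ioo ((r k).1 : ℝ) ((r k).2 : ℝ)) → g = f.1 := by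
      rintro ⟨f, hf⟩
      have h3 : ∃ x : Fin (q f).1 → Z,
          (∀ k, f.1.1 (x k) ∈ Ioo (((q f).2 k).1 : ℝ) (((q f).2 k).2 : ℝ)) ∧
          ∀ g : D, (∀ k, g.1.1 (x k) ∈ Ioo (((q f).2 k).1 : ℝ) (((q f).2 k).2 : ℝ)) → g = f :=
        ⟨x f, hx f, hxg f⟩
      rw [hf] at h3
      exact h3
    choose y hy hyg using h2
    refine no_unc_discrete (hZ m) y
      (fun f => {w | ∀ k, f.1.1.1 (w k) ∈ Ioo ((r k).1 : ℝ) ((r k).2 : ℝ)}) (fun f => ?_) hy ?_
    · have h3 : {w : Fin m → Z | ∀ k, f.1.1.1 (w k) ∈ Ioo ((r k).1 : ℝ) ((r k).2 : ℝ)} =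
          ⋂ k, {w | f.1.1.1 (w k) ∈ Ioo ((r k).1 : ℝ) ((r k).2 : ℝ)} := by
        ext w
        simp
      rw [h3]
      apply isOpen_iInter_of_finite
      intro k
      exact isOpen_Ioo.preimage (f.1.1.2.comp (continuous_apply k))
    · intro f g hg
      exact Subtype.ext (hyg g f.1 hg).symm
  have h5 : (univ : Set D) = ⋃ q₀ : (Σ m : ℕ, Fin m → ℚ × ℚ), {f : D | q f = q₀} := by
    ext d
    simp
  have h6 : (univ : Set D).Countable := by
    rw [h5]
    exact countable_iUnion fun c₀ => Set.countable_coe_iff.1 (hclass c₀)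
  exact Set.countable_coe_iff.1 (Set.countable_univ_iff.1 h6)

/-- Countable spread passes to powers of powers. -/
lemma spread_pow_pow {n : ℕ}
    (h : ∀ (κ : Type) [Fintype κ] (D : Set (κ → X)), DiscreteTopology D → D.Countable)
    (m : ℕ) (D : Set (Fin m → Fin n → X)) (hD : DiscreteTopology D) : D.Countable := by
  have h1 : ∀ d : D, ∃ O : Set (Fin m → Fin n → X), IsOpen O ∧ d.1 ∈ O ∧
      ∀ e : D, e.1 ∈ O → e = d := fun d => exists_isolating hD d
  choose O hO hdO hOe using h1
  have hcont : Continuous fun w : Fin m × Fin n → X => fun i j => w (i, j) :=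
    continuous_pi fun i => continuous_pi fun j => continuous_apply (i, j)
  have h2 : Countable D := no_unc_discrete (h (Fin m × Fin n))
    (fun d : D => fun p : Fin m × Fin n => d.1 p.1 p.2)
    (fun d => (fun w : Fin m × Fin n → X => fun i j => w (i, j)) ⁻¹' O d)
    (fun d => (hO d).preimage hcont) (fun d => hdO d) (fun d e he => hOe d e he)
  exact Set.countable_coe_iff.1 h2

/-- Small completely regular spaces are zero-dimensional. -/
lemma zeroDimensional_of_card [T35Space X] (hX : #X < 𝔠) : ZeroDimensional X := by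
  intro x U hU hx
  obtain ⟨f, hf, hf1, hf2, hf3, hf4⟩ := exists_bump x U hU hx
  have h1 : ∃ t ∈ Ioo (0 : ℝ) 1, t ∉ range f := by
    by_contra hcon
    push Not at hcon
    have h2 : Ioo (0 : ℝ) 1 ⊆ range f := hcon
    have h3 : Cardinal.lift.{u} #(Ioo (0 : ℝ) 1) ≤ Cardinal.lift.{u} #(range f) :=
      Cardinal.lift_le.2 (Cardinal.mk_le_mk_of_subset h2)
    rw [Cardinal.mk_Ioo_real one_pos, Cardinal.lift_continuum] at h3
    have h4 := h3.trans Cardinal.mk_range_le_lift
    rw [Cardinal.lift_uzero] at h4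
    exact absurd hX (not_lt.2 h4)
  obtain ⟨t, ⟨ht0, ht1⟩, ht⟩ := h1
  refine ⟨{y | t < f y}, ⟨?_, isOpen_lt continuous_const hf⟩, ?_, ?_⟩
  · have h2 : {y | t < f y} = {y | t ≤ f y} := by
      ext y
      constructor
      · intro h
        exact (show t < f y from h).le
      · intro h
        exact lt_of_le_of_ne h fun h' => ht ⟨y, h'.symm⟩
    rw [h2]
    exact isClosed_le continuous_const hf
  · show t < f x
    rw [hf1]
    exact ht1
  · intro y hy
    exact hf4 y (ht0.trans hy)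

lemma HereditarilySeparable.countable {Z : Type u} [TopologicalSpace Z]
    (h : HereditarilySeparable Z) (D : Set Z) (hD : DiscreteTopology D) : D.Countable := by
  obtain ⟨B, hBD, hB, hDB⟩ := h D
  refine hB.mono ?_
  intro d hd
  obtain ⟨O, hO, hdO, hO'⟩ := exists_isolating hD ⟨d, hd⟩
  obtain ⟨b, hbO, hb⟩ := mem_closure_iff.1 (hDB hd) O hO hdO
  have := hO' ⟨b, hBD hb⟩ hbO
  have h1 : b = d := congrArg Subtype.val this
  rw [← h1]
  exact hb

lemma HereditarilyLindelof.countable {Z : Type u} [TopologicalSpace Z]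
    (h : HereditarilyLindelof Z) (D : Set Z) (hD : DiscreteTopology D) : D.Countable := by
  classical
  have h1 : ∀ d : D, ∃ O : Set Z, IsOpen O ∧ d.1 ∈ O ∧ ∀ e : D, e.1 ∈ O → e = d :=
    fun d => exists_isolating hD d
  choose O hO hdO hOe using h1
  obtain ⟨𝒞, h𝒞, hc, hun⟩ := h (range O) (by rintro _ ⟨d, rfl⟩; exact hO d)
  have h2 : ∀ d : D, O d ∈ 𝒞 := by
    intro d
    have h3 : d.1 ∈ ⋃₀ 𝒞 := by
      rw [hun]
      exact ⟨O d, mem_range_self d, hdO d⟩
    obtain ⟨S, hS, hdS⟩ := h3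
    obtain ⟨e, rfl⟩ := h𝒞 hS
    have := hOe e d hdS
    rw [this]
    exact hS
  have h3 : Countable 𝒞 := hc.to_subtype
  have h4 : Function.Injective (fun d : D => (⟨O d, h2 d⟩ : 𝒞)) := by
    intro d e hde
    have h5 : O d = O e := congrArg Subtype.val hde
    have h6 : d.1 ∈ O e := h5 ▸ hdO d
    exact hOe e d h6
  exact Set.countable_coe_iff.1 h4.countable

lemma tightness_of_hereditarilySeparable {Z : Type u} [TopologicalSpace Z]
    (h : HereditarilySeparable Z) : tightness Z = ℵ₀ := by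
  have hmem : ℵ₀ ∈ {κ : Cardinal.{u} | ℵ₀ ≤ κ ∧ ∀ (A : Set Z) (x : Z), x ∈ closure A →
      ∃ B ⊆ A, #B ≤ κ ∧ x ∈ closure B} := by
    refine ⟨le_rfl, fun A x hx => ?_⟩
    obtain ⟨B, hBA, hB, hB2⟩ := h A
    exact ⟨B, hBA, Cardinal.le_aleph0_iff_set_countable.mpr hB,
      closure_minimal hB2 isClosed_closure hx⟩
  exact le_antisymm (csInf_le' hmem) (le_csInf ⟨_, hmem⟩ (fun κ hκ => hκ.1))

end powers

lemma alephOne_of_martin (h : MartinAxiom) (hCH : (ℵ₁ : Cardinal.{0}) < 𝔠) :
    MartinAxiomAlephOne := fun P _ _ hP 𝒟 h𝒟 hd => h P hP 𝒟 (h𝒟.trans_lt hCH) hd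


/-- **Main theorem.** (1) Under MA and the failure of CH every completely regular `T₀`-space `X`
such that `C_p(X)` has countable spread has countable tightness. (2) Under Martin's axiom for
`ℵ₁` dense sets such a space `X` is hereditarily separable and hereditarily Lindelof and `X × X` has
countable spread. (3) Under Martin's axiom for `ℵ₁` dense sets, for a completely regular
`T₀`-space `X` which is zero-dimensional or of cardinality less than the continuum, the following
are equivalent: `C_p(X)` has countable spread; all finite powers of `X` have countable spread; all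
finite powers of `X` are hereditarily separable; all finite powers of `X` are hereditarily
Lindelof. -/
theorem result :
    (MartinAxiom → (ℵ₁ : Cardinal.{0}) < 𝔠 → ∀ (X : Type u) [TopologicalSpace X] [T35Space X],
      spread {f : X → ℝ // Continuous f} = ℵ₀ → tightness X = ℵ₀) ∧
    (MartinAxiomAlephOne → ∀ (X : Type u) [TopologicalSpace X] [T35Space X],
      spread {f : X → ℝ // Continuous f} = ℵ₀ →
      tightness X = ℵ₀ ∧ HereditarilySeparable X ∧ HereditarilyLindelof X ∧
        spread (X × X) = ℵ₀) ∧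
    (MartinAxiomAlephOne → ∀ (X : Type u) [TopologicalSpace X] [T35Space X],
      (ZeroDimensional X ∨ #X < 𝔠) →
      (spread {f : X → ℝ // Continuous f} = ℵ₀ ↔ ∀ n : ℕ, spread (Fin n → X) = ℵ₀) ∧
      (spread {f : X → ℝ // Continuous f} = ℵ₀ ↔ ∀ n : ℕ, HereditarilySeparable (Fin n → X)) ∧
      (spread {f : X → ℝ // Continuous f} = ℵ₀ ↔ ∀ n : ℕ, HereditarilyLindelof (Fin n → X))) := by
  refine ⟨?_, ?_, ?_⟩
  · intro hMA hCH X _ _ hs
    exact tightness_of_hereditarilySeparable
      (hsep (alephOne_of_martin hMA hCH) X (countable_of_spread hs))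
  · intro hMA X _ _ hs
    have h1 := hsep hMA X (countable_of_spread hs)
    exact ⟨tightness_of_hereditarilySeparable h1, h1, hlin hMA X (countable_of_spread hs),
      spread_of_countable (spread_square (countable_of_spread hs))⟩
  · intro hMA X _ _ hX
    have hz : ZeroDimensional X := hX.elim id zeroDimensional_of_card
    have hA : spread {f : X → ℝ // Continuous f} = ℵ₀ → ∀ n : ℕ,
        spread (Fin n → X) = ℵ₀ ∧ HereditarilySeparable (Fin n → X) ∧
        HereditarilyLindelof (Fin n → X) := by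
      intro hs n
      have h1 : ∀ (κ : Type) [Fintype κ] (D : Set (κ → X)), DiscreteTopology D → D.Countable :=
        fun κ _ D hD => spread_pow hz (countable_of_spread hs) D hD
      have h2 : ∀ D : Set {f : (Fin n → X) → ℝ // Continuous f}, DiscreteTopology D →
          D.Countable := fun D hD => spread_Cp (spread_pow_pow h1) D hD
      exact ⟨spread_of_countable (h1 (Fin n)), hsep hMA _ h2, hlin hMA _ h2⟩
    have hB : (∀ (n : ℕ) (D : Set (Fin n → X)), DiscreteTopology D → D.Countable) →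
        spread {f : X → ℝ // Continuous f} = ℵ₀ := fun h => spread_of_countable (spread_Cp h)
    exact ⟨⟨fun h n => (hA h n).1, fun h => hB fun n D hD => countable_of_spread (h n) D hD⟩,
      ⟨fun h n => (hA h n).2.1, fun h => hB fun n D hD => (h n).countable D hD⟩,
      ⟨fun h n => (hA h n).2.2, fun h => hB fun n D hD => (h n).countable D hD⟩⟩

end Pool.Agent.Results.MP_f6eb07_gt.PowersMA
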